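import Mathlib
import Pool.Agent.V11330.CA.Main

/-!
Cancellative elements of tropicalised prime quotients.

Definitions, all from `Pool.Agent.V11330.CA.Trop`, for a field `K`, a valuation `v : K → Γ` in the
max convention with values in a linearly ordered commutative group with zero `Γ`, a commutative
monoid `M` (written additively) and an ideal `I` of `K[M]`:
* `MaxTimes Γ` is the semifield `Γ` with addition `max`;
* `trop v f` is the tropicalisation of `f ∈ K[M]`, an element of `(MaxTimes Γ)[M]`;
* `BendRel v I` is the set of the bend relations `φ ∼ φ` without one of its terms, `φ = trop f`,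
  `f ∈ I`;
* `Quo v I` is the quotient of `(MaxTimes Γ)[M]` by the smallest semiring congruence which contains
  the bend relations, and `cls v I` is the quotient map.
-/

set_option autoImplicit false

open AddMonoidAlgebra Pool.Agent.V11330.CA

namespace Pool.Agent.Results.MP_58a9d8_ag.CancellativeTerms

/-- If `I` is a prime ideal which contains neither a monomial nor a binomial, then every
cancellative element of the tropicalised quotient is the class of a term. -/
theorem result : ∀ (K : Type) [Field K] (Γ : Type) [LinearOrderedCommGroupWithZero Γ]
    (v : Valuation K Γ) (M : Type) [AddCommMonoid M] (I : Ideal (AddMonoidAlgebra K M)),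
    I.IsPrime →
    (∀ (u : M) (c : K), c ≠ 0 → single u c ∉ I) →
    (∀ u w : M, u ≠ w → ∀ c d : K, c ≠ 0 → d ≠ 0 → single u c + single w d ∉ I) →
    ∀ x : Quo v I, (∀ g h : Quo v I, x * g = x * h → g = h) →
      ∃ (u : M) (a : MaxTimes Γ), a ≠ 0 ∧ x = cls v I (single u a) := by
  intro K _ Γ _ v M _ I hI hmon hbin x hx
  exact canc_term v hI hmon hbin hx

end Pool.Agent.Results.MP_58a9d8_ag.CancellativeTerms
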